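import Pool.Agent.QPI.Stmts

set_option autoImplicit false

namespace Pool.Agent.QPI.H48

open MvPolynomial

section

variable {N₁ N₂ : ℕ}


theorem wh_mem {p : MvPolynomial (Fin N₁ ⊕ Fin N₂) ℚ} {a : ℕ} :
    p ∈ weightedHomogeneousSubmodule ℚ (wt : Fin N₁ ⊕ Fin N₂ → ℕ) a ↔
      IsWeightedHomogeneous (wt : Fin N₁ ⊕ Fin N₂ → ℕ) p a :=
  Iff.rfl

theorem wh_natCast (a : ℕ) :
    IsWeightedHomogeneous (wt : Fin N₁ ⊕ Fin N₂ → ℕ)
      ((a : MvPolynomial (Fin N₁ ⊕ Fin N₂) ℚ)) 0 := by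
  have h := isWeightedHomogeneous_C (wt : Fin N₁ ⊕ Fin N₂ → ℕ) (a : ℚ)
  rw [map_natCast] at h
  exact h

theorem wh_mul {g h : PowerSeries (MvPolynomial (Fin N₁ ⊕ Fin N₂) ℚ)} (hg : WH g) (hh : WH h) :
    WH (g * h) := by
  intro a
  rw [PowerSeries.coeff_mul]
  refine (wh_mem (N₁ := N₁) (N₂ := N₂)).1 ?_
  apply Submodule.sum_mem
  intro x hx
  have hx' := Finset.HasAntidiagonal.mem_antidiagonal.1 hx
  have h1 := (hg x.1).mul (hh x.2)
  rw [hx'] at h1
  exact h1

theorem wh_inv {g : PowerSeries (MvPolynomial (Fin N₁ ⊕ Fin N₂) ℚ)} (hg : WH g) :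
    WH (PowerSeries.invOfUnit g 1) := by
  intro a
  induction a using Nat.strong_induction_on with
  | _ a ih =>
    rw [PowerSeries.coeff_invOfUnit]
    split_ifs with h0
    · subst h0
      simp only [inv_one, Units.val_one]
      exact isWeightedHomogeneous_one ℚ (wt : Fin N₁ ⊕ Fin N₂ → ℕ)
    · simp only [inv_one, Units.val_one, neg_mul, one_mul]
      apply IsWeightedHomogeneous.neg
      refine (wh_mem (N₁ := N₁) (N₂ := N₂)).1 ?_
      apply Submodule.sum_mem
      intro x hx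
      have hx' := Finset.HasAntidiagonal.mem_antidiagonal.1 hx
      split_ifs with h1
      · have h2 := (hg x.1).mul (ih x.2 h1)
        rw [hx'] at h2
        exact h2
      · exact Submodule.zero_mem _

end

theorem whc : WhcStmt := by
  intro N₁ N₂ g h
  refine ⟨?_, fun hg hh => wh_mul hg hh, ?_, ?_, ?_, fun hg _ => wh_inv hg⟩
  · intro hg hh a
    rw [map_add]
    exact (hg a).add (hh a)
  · intro hg a
    unfold th
    rw [PowerSeries.coeff_mk]
    have h1 := (wh_natCast (N₁ := N₁) (N₂ := N₂) a).mul (hg a)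
    rw [zero_add] at h1
    exact h1
  · intro hg a
    rw [map_neg]
    exact (hg a).neg
  · intro a b
    have h1 : ((a : PowerSeries (MvPolynomial (Fin N₁ ⊕ Fin N₂) ℚ))) =
        PowerSeries.C (a : MvPolynomial (Fin N₁ ⊕ Fin N₂) ℚ) := (map_natCast _ a).symm
    rw [h1, PowerSeries.coeff_C]
    split_ifs with hb
    · subst hb
      exact wh_natCast a
    · exact isWeightedHomogeneous_zero ℚ (wt : Fin N₁ ⊕ Fin N₂ → ℕ) _

end Pool.Agent.QPI.H48
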